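import Pool.Agent.H86.DB.Targets

/-!
# Bounds for the smoothability defect: products of monomials and Newton products form a basis
-/

open Module MvPolynomial

namespace Pool.Agent.H18.DB

open Pool.Agent.H86.DB

universe u

section

variable {A : Type u} [CommRing A] {m : ℕ}

/-- total degree of an exponent -/
def dg (s : Fin m →₀ ℕ) : ℕ := ∑ i, s i

theorem dg_add (s t : Fin m →₀ ℕ) : dg (s + t) = dg s + dg t := by
  unfold dg
  rw [← Finset.sum_add_distrib]
  rfl

theorem dg_single (j : Fin m) (k : ℕ) : dg (Finsupp.single j k) = k := by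
  unfold dg
  rw [Finset.sum_eq_single j]
  · simp
  · intro i _ hi
    exact Finsupp.single_eq_of_ne hi
  · intro h
    exact absurd (Finset.mem_univ j) h

theorem dg_supp (s : Fin m →₀ ℕ) : ∑ i ∈ s.support, s i = dg s := by
  unfold dg
  apply Finset.sum_subset (Finset.subset_univ _)
  intro i _ hi
  simpa using hi

/-- `p` is the monomial `t` plus terms of lower degree -/
def Led (p : MvPolynomial (Fin m) A) (t : Fin m →₀ ℕ) : Prop :=
  ∀ s : Fin m →₀ ℕ, dg t ≤ dg s → coeff s p = if s = t then 1 else 0

theorem Led.one : Led (1 : MvPolynomial (Fin m) A) 0 := by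
  intro s _
  rw [coeff_one]
  by_cases h : s = 0
  · rw [if_pos h.symm, if_pos h]
  · rw [if_neg (Ne.symm h), if_neg h]

theorem Led.mul {p q : MvPolynomial (Fin m) A} {t u : Fin m →₀ ℕ} (hp : Led p t) (hq : Led q u) :
    Led (p * q) (t + u) := by
  intro s hs
  rw [dg_add] at hs
  rw [coeff_mul]
  have h1 : ∀ z ∈ Finset.HasAntidiagonal.antidiagonal s, coeff z.1 p * coeff z.2 q =
      if z = (t, u) then 1 else 0 := by
    rintro ⟨x, y⟩ hz
    rw [Finset.HasAntidiagonal.mem_antidiagonal] at hz
    have hxy : dg x + dg y = dg s := by rw [← dg_add]; exact congrArg dg hz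
    show coeff x p * coeff y q = _
    rcases le_or_gt (dg t) (dg x) with h | h
    · rw [hp x h]
      by_cases hx : x = t
      · subst hx
        rw [hq y (by omega)]
        by_cases hy : y = u
        · subst hy
          simp
        · rw [if_neg hy, if_neg (fun h2 => hy (congrArg Prod.snd h2)), mul_zero]
      · rw [if_neg hx, if_neg (fun h2 => hx (congrArg Prod.fst h2)), zero_mul]
    · have hy : y ≠ u := by
        rintro rfl
        omega
      rw [hq y (by omega), if_neg hy, if_neg (fun h2 => hy (congrArg Prod.snd h2)), mul_zero]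
  rw [Finset.sum_congr rfl h1, Finset.sum_ite_eq']
  by_cases hst : s = t + u
  · rw [if_pos hst, if_pos (Finset.HasAntidiagonal.mem_antidiagonal.2 hst.symm)]
  · rw [if_neg hst, if_neg (fun h2 => hst (Finset.HasAntidiagonal.mem_antidiagonal.1 h2).symm)]

theorem Led.prod {ι : Type} (S : Finset ι) (p : ι → MvPolynomial (Fin m) A)
    (t : ι → (Fin m →₀ ℕ)) (h : ∀ i ∈ S, Led (p i) (t i)) : Led (∏ i ∈ S, p i) (∑ i ∈ S, t i) := by
  classical
  induction S using Finset.induction_on with
  | empty =>
    rw [Finset.prod_empty, Finset.sum_empty]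
    exact Led.one
  | insert a S ha ih =>
    rw [Finset.prod_insert ha, Finset.sum_insert ha]
    exact (h a (Finset.mem_insert_self a S)).mul
      (ih fun i hi => h i (Finset.mem_insert_of_mem hi))

theorem Led.X_pow (j : Fin m) (k : ℕ) :
    Led (X j ^ k : MvPolynomial (Fin m) A) (Finsupp.single j k) := by
  intro s _
  rw [coeff_X_pow]
  by_cases h : s = Finsupp.single j k
  · rw [if_pos h.symm, if_pos h]
  · rw [if_neg (Ne.symm h), if_neg h]

theorem Led.sub_C {R : ℕ} {f : MvPolynomial (Fin m) A} {j : Fin m}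
    (hf : (f - X j ^ R).totalDegree < R) (a : A) : Led (f - C a) (Finsupp.single j R) := by
  intro s hs
  have hR : dg (Finsupp.single j R) = R := dg_single j R
  have h1 : coeff s (f - X j ^ R) = 0 := by
    apply coeff_eq_zero_of_totalDegree_lt
    rw [dg_supp]
    omega
  have h2 : s ≠ 0 := by
    rintro rfl
    have : dg (0 : Fin m →₀ ℕ) = 0 := by unfold dg; simp
    omega
  have h3 : coeff s (C a : MvPolynomial (Fin m) A) = 0 := by
    rw [coeff_C, if_neg (Ne.symm h2)]
  have h4 : f - C a = (f - X j ^ R) + X j ^ R - C a := by ring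
  rw [h4, coeff_sub, coeff_add, h1, h3, Led.X_pow j R s hs]
  ring

/-- a family with leading monomials given by a bijection is a basis -/
theorem led_basis {ι : Type} (g : ι → MvPolynomial (Fin m) A) (e : ι → (Fin m →₀ ℕ))
    (he : Function.Bijective e) (hg : ∀ i, Led (g i) (e i)) :
    LinearIndependent A g ∧ Submodule.span A (Set.range g) = ⊤ := by
  classical
  constructor
  · rw [linearIndependent_iff']
    intro S a hS
    by_contra hcon
    push Not at hcon
    obtain ⟨i₁, hi₁, hai₁⟩ := hcon
    have hne : (S.filter fun i => a i ≠ 0).Nonempty :=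
      ⟨i₁, Finset.mem_filter.2 ⟨hi₁, hai₁⟩⟩
    obtain ⟨i₀, hi₀, hmax⟩ := Finset.exists_max_image _ (fun i => dg (e i)) hne
    rw [Finset.mem_filter] at hi₀
    apply hi₀.2
    have h1 : coeff (e i₀) (∑ i ∈ S, a i • g i) = 0 := by rw [hS, coeff_zero]
    rw [coeff_sum] at h1
    rw [← h1, Finset.sum_eq_single i₀]
    · rw [coeff_smul, hg i₀ _ le_rfl, if_pos rfl, smul_eq_mul, mul_one]
    · intro i hi hne'
      rw [coeff_smul]
      by_cases hai : a i = 0
      · rw [hai, zero_smul]
      · have h2 := hmax i (Finset.mem_filter.2 ⟨hi, hai⟩)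
        rw [hg i _ h2, if_neg (fun h3 => hne' (he.1 h3.symm)), smul_zero]
    · intro h2
      exact absurd hi₀.1 h2
  · have key : ∀ N : ℕ, ∀ p : MvPolynomial (Fin m) A, (∀ s, N ≤ dg s → coeff s p = 0) →
        p ∈ Submodule.span A (Set.range g) := by
      intro N
      induction N with
      | zero =>
        intro p hp
        have : p = 0 := by
          ext s
          rw [hp s (Nat.zero_le _), coeff_zero]
        rw [this]
        exact Submodule.zero_mem _
      | succ N ih =>
        intro p hp
        rw [← support_sum_monomial_coeff p]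
        refine Submodule.sum_mem _ fun s hs => ?_
        have hsN : dg s ≤ N := by
          by_contra h
          exact (mem_support_iff.1 hs) (hp s (by omega))
        obtain ⟨i, rfl⟩ := he.2 s
        have h1 : monomial (e i) (coeff (e i) p) =
            coeff (e i) p • g i - coeff (e i) p • (g i - monomial (e i) 1) := by
          rw [← smul_sub, sub_sub_cancel, smul_monomial, smul_eq_mul, mul_one]
        rw [h1]
        refine Submodule.sub_mem _ (Submodule.smul_mem _ _ (Submodule.subset_span ⟨i, rfl⟩))
          (Submodule.smul_mem _ _ (ih _ fun t ht => ?_))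
        rw [coeff_sub, hg i t (hsN.trans ht), coeff_monomial]
        by_cases h2 : t = e i
        · rw [if_pos h2, if_pos h2.symm, sub_self]
        · rw [if_neg h2, if_neg (Ne.symm h2), sub_self]
    rw [Submodule.eq_top_iff']
    intro p
    refine key (p.totalDegree + 1) p fun s hs => ?_
    apply coeff_eq_zero_of_totalDegree_lt
    rw [dg_supp]
    omega

/-- the leading exponent of a product -/
noncomputable def ex {R : ℕ} (p : (Fin m → Fin R) × (Fin m → ℕ)) : Fin m →₀ ℕ :=
  (∑ j, Finsupp.single j (p.1 j : ℕ)) + ∑ j, ∑ _i ∈ Finset.range (p.2 j), Finsupp.single j R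

theorem ex_apply {R : ℕ} (p : (Fin m → Fin R) × (Fin m → ℕ)) (j : Fin m) :
    ex p j = (p.1 j : ℕ) + p.2 j * R := by
  unfold ex
  rw [Finsupp.add_apply, Finsupp.finsetSum_apply, Finsupp.finsetSum_apply]
  congr 1
  · rw [Finset.sum_eq_single j]
    · rw [Finsupp.single_eq_same]
    · intro i _ hi
      exact Finsupp.single_eq_of_ne' hi
    · intro h
      exact absurd (Finset.mem_univ j) h
  · rw [Finset.sum_eq_single j]
    · rw [Finset.sum_const, Finset.card_range, Finsupp.smul_apply, Finsupp.single_eq_same,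
        smul_eq_mul]
    · intro i _ hi
      rw [Finset.sum_const, Finsupp.smul_apply, Finsupp.single_eq_of_ne' hi, smul_zero]
    · intro h
      exact absurd (Finset.mem_univ j) h

theorem ex_bij {R : ℕ} (hR : Fin m → 0 < R) :
    Function.Bijective (ex : (Fin m → Fin R) × (Fin m → ℕ) → (Fin m →₀ ℕ)) := by
  constructor
  · rintro ⟨α, β⟩ ⟨α', β'⟩ h
    have h1 : ∀ j, (α j : ℕ) + β j * R = (α' j : ℕ) + β' j * R := fun j => by
      rw [← ex_apply (α, β) j, ← ex_apply (α', β') j, h]
    have h2 : ∀ j, β j = β' j := fun j => by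
      have h3 : ((α j : ℕ) + β j * R) / R = ((α' j : ℕ) + β' j * R) / R := by rw [h1 j]
      rw [Nat.add_mul_div_right _ _ (hR j), Nat.add_mul_div_right _ _ (hR j),
        Nat.div_eq_of_lt (α j).2, Nat.div_eq_of_lt (α' j).2] at h3
      omega
    have h3 : ∀ j, α j = α' j := fun j => by
      have h4 := h1 j
      rw [h2 j] at h4
      exact Fin.ext (by omega)
    exact Prod.ext (funext h3) (funext h2)
  · intro s
    refine ⟨(fun j => ⟨s j % R, Nat.mod_lt _ (hR j)⟩, fun j => s j / R), ?_⟩
    apply Finsupp.ext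
    intro j
    rw [ex_apply]
    show s j % R + s j / R * R = s j
    exact Nat.mod_add_div' (s j) R

end

theorem pf_BAS : T_BAS.{u} := by
  intro A _ _ m R F c hF
  refine led_basis _ (ex : (Fin m → Fin R) × (Fin m → ℕ) → (Fin m →₀ ℕ)) (ex_bij fun j => ?_)
    fun p => ?_
  · exact lt_of_le_of_lt (Nat.zero_le _) (hF j)
  · unfold ex mo nw
    refine Led.mul (Led.prod _ _ _ fun j _ => Led.X_pow j _) (Led.prod _ _ _ fun j _ => ?_)
    exact Led.prod _ _ _ fun i _ => Led.sub_C (hF j) _

end Pool.Agent.H18.DB
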