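import Pool.Agent.H86.DB.Targets

/-!
# Bounds for the smoothability defect: the number of exponents
-/

open Module MvPolynomial

namespace Pool.Agent.H18.DB

open Pool.Agent.H86.DB

theorem card_sub (m n : ℕ) :
    Fintype.card {β : Fin m → Fin (n + 1) // ∑ j, (β j : ℕ) ≤ n} = (n + m).choose m := by
  classical
  rw [Fintype.card_subtype]
  have h1 : (Finset.finsuppAntidiag (Finset.univ : Finset (Fin (m + 1))) n).card =
      (n + m).choose m := by
    rw [Finset.card_finsuppAntidiag_nat_eq_choose, Finset.card_univ, Fintype.card_fin]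
    have e : m + 1 + n - 1 = n + m := by omega
    rw [e]
    exact Nat.choose_symm_add
  rw [← h1]
  refine Finset.card_bij (fun β _ => Finsupp.equivFunOnFinite.symm
    (Fin.cons (n - ∑ j, (β j : ℕ)) (fun j => (β j : ℕ)) : Fin (m + 1) → ℕ)) ?_ ?_ ?_
  · intro β hβ
    rw [Finset.mem_filter] at hβ
    rw [Finset.mem_finsuppAntidiag]
    refine ⟨?_, Finset.subset_univ _⟩
    rw [Fin.sum_univ_succ]
    simp only [Finsupp.equivFunOnFinite_symm_apply_apply, Fin.cons_zero, Fin.cons_succ]
    exact Nat.sub_add_cancel hβ.2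
  · intro β _ β' _ h
    funext j
    apply Fin.ext
    have h2 := DFunLike.congr_fun h (Fin.succ j)
    simpa using h2
  · intro g hg
    rw [Finset.mem_finsuppAntidiag] at hg
    have hs := hg.1
    rw [Fin.sum_univ_succ] at hs
    have hle : ∀ j : Fin m, g (Fin.succ j) < n + 1 := by
      intro j
      have h2 : g (Fin.succ j) ≤ ∑ i : Fin m, g (Fin.succ i) :=
        Finset.single_le_sum (f := fun i : Fin m => g (Fin.succ i)) (fun _ _ => Nat.zero_le _)
          (Finset.mem_univ j)
      omega
    refine ⟨fun j => ⟨g (Fin.succ j), hle j⟩, ?_, ?_⟩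
    · rw [Finset.mem_filter]
      refine ⟨Finset.mem_univ _, ?_⟩
      show ∑ j : Fin m, g (Fin.succ j) ≤ n
      omega
    · apply Finsupp.ext
      intro i
      refine Fin.cases ?_ (fun j => ?_) i
      · simp only [Finsupp.equivFunOnFinite_symm_apply_apply, Fin.cons_zero]
        omega
      · simp only [Finsupp.equivFunOnFinite_symm_apply_apply, Fin.cons_succ]

theorem pf_CARD : T_CARD := by
  intro m R n
  rw [Fintype.card_prod, card_sub, Fintype.card_fun, Fintype.card_fin, Fintype.card_fin]

end Pool.Agent.H18.DB
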